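import Pool.Agent.MWI.StmtsT

/-!
# MWI NO2 (MP_23468a_al): words equivalent to `x² t`
-/

set_option autoImplicit false

namespace Pool.Agent.MWI.H94

open Pool.Agent.Helper14_MV Pool.Agent.Helper2_MV Pool.Agent.MWF Pool.Agent.MWI

theorem iso_a {β : FIC} (H : Iso3 β) {l : List ℕ} (h : RR β [1] l) : l = [1] := by
  have h1 := iso_ab H (a := 1) (b := 0) (by decide) (h.append (RR.refl [0]))
  have h2 : l ++ [0] = [1] ++ [0] := h1
  exact List.append_cancel_right h2

/-- `x² ≈ x` is impossible -/
theorem no_sq {β : FIC} (H : Iso3 β) (h : RR β [0, 0] [0]) : False := by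
  have h1 := H _ ((h.symm).append (RR.refl [1, 0]))
  simp at h1

theorem no2 : No2Stmt := by
  intro n β hT hno
  have H := hT.iso
  unfold O2 at hno
  push Not at hno
  obtain ⟨v, hv, hv'⟩ := hno
  have hc : ∀ c ∈ v, c = 0 ∨ c = 1 := by
    intro c hc
    by_contra hcon
    push Not at hcon
    exact (hv.content H (c := c) (by simp; tauto)) hc
  have h1 : v.filter (fun c => c == 1) = [1] := by
    have h := hv.filter (fun c => c == 1)
    exact iso_a H (by simpa using h)
  obtain ⟨A, B, rfl, hA, hB⟩ : ∃ A B : List ℕ, v = A ++ 1 :: B ∧ 1 ∉ A ∧ 1 ∉ B := by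
    have hm : (1 : ℕ) ∈ v := by
      have : (1 : ℕ) ∈ v.filter (fun c => c == 1) := by rw [h1]; simp
      exact (List.mem_filter.1 this).1
    obtain ⟨A, B, rfl⟩ := List.append_of_mem hm
    rw [List.filter_append, List.filter_cons] at h1
    have h4 := congrArg List.length h1
    rw [if_pos (by decide), List.length_append, List.length_cons, List.length_singleton] at h4
    refine ⟨A, B, rfl, ?_, ?_⟩
    · intro hA
      have h3 : 0 < (A.filter (fun c => c == 1)).length :=
        List.length_pos_of_mem (List.mem_filter.2 ⟨hA, by simp⟩)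
      omega
    · intro hB
      have h3 : 0 < (B.filter (fun c => c == 1)).length :=
        List.length_pos_of_mem (List.mem_filter.2 ⟨hB, by simp⟩)
      omega
  have eA : A = List.replicate A.length 0 := List.eq_replicate_of_mem (fun c hcA => by
    rcases hc c (List.mem_append_left _ hcA) with h | h
    · exact h
    · exact absurd (h ▸ hcA) hA)
  have eB : B = List.replicate B.length 0 := List.eq_replicate_of_mem (fun c hcB => by
    rcases hc c (List.mem_append_right _ (List.mem_cons_of_mem _ hcB)) with h | h
    · exact h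
    · exact absurd (h ▸ hcB) hB)
  obtain ⟨a, ha⟩ : ∃ a, a = A.length := ⟨_, rfl⟩
  obtain ⟨b, hb⟩ : ∃ b, b = B.length := ⟨_, rfl⟩
  rw [← ha] at eA
  rw [← hb] at eB
  rw [eA, eB] at hv hv'
  have hfil := hv.filter (fun c => c == 0)
  rcases a with _ | _ | a
  · rcases b with _ | _ | b
    · exfalso
      have h2 : RR β [0, 0] [] := by simpa using hfil
      have h3 := iso_nil H h2.symm
      simp at h3
    · exfalso
      exact no_sq H (by simpa using hfil)
    · refine ⟨b + 1 + 1, by omega, Or.inr ?_⟩
      simpa using hv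
  · rcases b with _ | _ | b
    · exfalso
      exact no_sq H (by simpa using hfil)
    · exfalso
      have h2 := H [0, 0, 1] (by simpa using hv.symm)
      simp at h2
    · refine ⟨b + 1 + 1, by omega, Or.inl ?_⟩
      simpa using hv
  · exfalso
    apply hv' (List.replicate a 0 ++ 1 :: List.replicate b 0)
    simp [List.replicate_succ]

end Pool.Agent.MWI.H94
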